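import Pool.Agent.H92.RingFinal

set_option autoImplicit false
open MeasureTheory Filter Topology
open scoped ENNReal

/-- One sequence `Λ` of upper density zero whose Cauchy kernels form a representing system in
`H^p` for every `1 ≤ p < ∞`; `H^p` is the space of `L^p` functions on the circle `ℝ/ℤ`
(normalised Haar measure, `z = fourier 1 x = e^{2 π i x}`) whose negative Fourier coefficients vanish. -/
theorem Pool.Agent.Results.MP_459ac8_an.ZeroDensity.result :
    ∃ Λ : ℕ → ℂ, Function.Injective Λ ∧ (∀ n, ‖Λ n‖ < 1) ∧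
      (∀ r : ℝ, r < 1 → (Set.range Λ ∩ Metric.ball 0 r).Finite) ∧
      Tendsto (fun r : ℝ => (1 - r) * ((Set.range Λ ∩ Metric.ball 0 r).ncard : ℝ))
        (𝓝[<] 1) (𝓝 0) ∧
      ∀ p : ℝ≥0∞, 1 ≤ p → p ≠ ∞ →
        ∀ f : AddCircle (1:ℝ) → ℂ, MemLp f p AddCircle.haarAddCircle →
          (∀ n : ℤ, n < 0 → fourierCoeff f n = 0) →
          ∃ c : ℕ → ℂ, Tendsto (fun N : ℕ => eLpNorm (fun x => f x - ∑ k ∈ Finset.range N,
            c k * (1 - starRingEnd ℂ (Λ k) * fourier 1 x)⁻¹) p AddCircle.haarAddCircle)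
            atTop (𝓝 0) :=
  Pool.Agent.H92.RingFinal.final
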